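import Pool.Agent.Lib.MP_3cdc4e_an.Defs

/-! Combinatorics of Schreier families: gluing and repeated averages. -/

namespace Pool.Agent.Lib.MP_3cdc4e_an

open Finset

/-- All sums of `f` over sets of `S_m` are at most `c`. -/
def Bd (m : ℕ) (f : ℕ+ → ℝ) (c : ℝ) : Prop := ∀ F ∈ Schreier m, ∑ j ∈ F, f j ≤ c

theorem Bd.nonneg {m : ℕ} {f : ℕ+ → ℝ} {c : ℝ} (h : Bd m f c) : 0 ≤ c := by
  simpa using h ∅ (empty_mem m)

theorem mem_of_card (n : ℕ) {F : Finset ℕ+} (h : ∀ a ∈ F, F.card ≤ (a : ℕ)) :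
    F ∈ Schreier (n + 1) := by
  rcases F.eq_empty_or_nonempty with rfl | hF
  · exact empty_mem _
  obtain ⟨k, hk⟩ : ∃ k, F.card = k + 1 := ⟨F.card - 1, by have := hF.card_pos; omega⟩
  refine Or.inr ⟨k, fun j => {F.orderEmbOfFin hk j}, fun j => ⟨by simp, singleton_mem _ _⟩,
    fun i j hij a ha b hb => ?_, fun a ha => ?_, ?_⟩
  · rw [Finset.mem_singleton] at ha hb
    rw [ha, hb]
    exact (F.orderEmbOfFin hk).strictMono hij
  · rw [Finset.mem_singleton] at ha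
    rw [ha]
    exact hk.ge.trans (h _ (F.orderEmbOfFin_mem hk 0))
  · ext a
    simp only [mem_biUnion, mem_univ, mem_singleton, true_and]
    constructor
    · intro ha
      have : a ∈ Set.range (F.orderEmbOfFin hk) := by rw [F.range_orderEmbOfFin]; exact ha
      obtain ⟨j, hj⟩ := this
      exact ⟨j, hj.symm⟩
    · rintro ⟨j, rfl⟩
      exact F.orderEmbOfFin_mem hk j

theorem decomp {m : ℕ} {F : Finset ℕ+} (hF : F ∈ Schreier (m + 1)) :
    ∃ k : ℕ, (∀ a ∈ F, k ≤ (a : ℕ)) ∧ ∀ (f : ℕ+ → ℝ) (c : ℝ), (∀ j, 0 ≤ f j) → Bd m f c →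
      ∑ j ∈ F, f j ≤ k * c := by
  rcases hF with rfl | ⟨k, G, h1, h2, h3, rfl⟩
  · exact ⟨0, by simp, by simp⟩
  refine ⟨k + 1, fun a ha => ?_, fun f c hf hc => ?_⟩
  · obtain ⟨j, -, hj⟩ := mem_biUnion.1 ha
    rcases eq_or_ne j 0 with rfl | h0
    · exact h3 a hj
    · obtain ⟨b, hb⟩ := (h1 0).1
      have : b < a := h2 0 j (Fin.pos_iff_ne_zero.2 h0) b hb a hj
      exact (h3 b hb).trans (le_of_lt this)
  · rw [sum_biUnion]
    · refine (sum_le_sum fun j _ => hc _ (h1 j).2).trans ?_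
      simp
    · intro i _ j _ hij
      rw [Function.onFun, disjoint_left]
      intro a hi hj
      rcases lt_or_gt_of_ne hij with h | h
      · exact lt_irrefl _ (h2 i j h a hi a hj)
      · exact lt_irrefl _ (h2 j i h a hj a hi)

theorem glue {m : ℕ} {p : ℕ → ℕ} (hp : Monotone p) {y : ℕ → ℕ+ → ℝ} (hy : ∀ l j, 0 ≤ y l j)
    (hs : ∀ l j, y l j ≠ 0 → (j : ℕ) ≤ p (l + 1)) {c : ℝ} (hc : ∀ l F, ∑ j ∈ F, y l j ≤ c)
    {δ η : ℕ → ℝ} (hδ : ∀ l, Bd m (y l) (δ l)) (hη : ∀ l, p l * δ l ≤ η l) (s : Finset ℕ) :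
    Bd (m + 1) (fun j => ∑ l ∈ s, y l j) (c + ∑ l ∈ s, η l) := by
  intro F hF
  obtain ⟨k, hk, hk'⟩ := decomp hF
  have hc0 : 0 ≤ c := by simpa using hc 0 ∅
  have hη0 : ∀ l, 0 ≤ η l := fun l => (mul_nonneg (Nat.cast_nonneg _) (hδ l).nonneg).trans (hη l)
  have key : ∀ l, ∑ j ∈ F, y l j ≤ (if p l < k ∧ k ≤ p (l + 1) then c else 0) + η l := by
    intro l
    split_ifs with h
    · exact (hc l F).trans (le_add_of_nonneg_right (hη0 l))
    · rw [zero_add]
      rcases le_or_gt k (p l) with h1 | h1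
      · refine (hk' _ _ (hy l) (hδ l)).trans (le_trans ?_ (hη l))
        exact mul_le_mul_of_nonneg_right (Nat.cast_le.2 h1) (hδ l).nonneg
      · refine le_trans (le_of_eq (sum_eq_zero fun j hj => ?_)) (hη0 l)
        by_contra h0
        exact h ⟨h1, (hk j hj).trans (hs l j h0)⟩
  rw [sum_comm]
  refine (sum_le_sum fun l _ => key l).trans ?_
  rw [sum_add_distrib, ← sum_filter]
  gcongr
  rw [sum_const, nsmul_eq_mul]
  refine mul_le_of_le_one_left hc0 ?_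
  rw [Nat.cast_le_one, card_le_one]
  intro a ha b hb
  rw [mem_filter] at ha hb
  by_contra hab
  rcases lt_or_gt_of_ne hab with h | h
  · have := hp (show a + 1 ≤ b from h); omega
  · have := hp (show b + 1 ≤ a from h); omega

theorem exists_seq {α : ℕ → Type} (S : ∀ l, α l → Finset ℕ+) (R : ∀ l, ℕ → α l → Prop)
    (h : ∀ l p, ∃ x, R l p x) (p₀ : ℕ) :
    ∃ (p : ℕ → ℕ) (x : ∀ l, α l), p 0 = p₀ ∧ Monotone p ∧ (∀ l, R l (p l) (x l)) ∧
      ∀ l, ∀ j ∈ S l (x l), (j : ℕ) ≤ p (l + 1) := by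
  choose g hg using h
  let p : ℕ → ℕ := fun l =>
    Nat.rec p₀ (fun l q => max q ((S l (g l q)).sup fun j => (j : ℕ))) l
  refine ⟨p, fun l => g l (p l), rfl, monotone_nat_of_le_succ fun l => le_max_left _ _,
    fun l => hg l _, fun l j hj => ?_⟩
  exact (Finset.le_sup (f := fun j : ℕ+ => (j : ℕ)) hj).trans (le_max_right _ _)

/-- A convex combination supported by a set of `S_m` beyond `p`. -/
structure Blk (m p : ℕ) (E : Finset ℕ+) (a : ℕ+ → ℝ) : Prop where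
  mem : E ∈ Schreier m
  gt : ∀ j ∈ E, p < (j : ℕ)
  nonneg : ∀ j, 0 ≤ a j
  supp : ∀ j, a j ≠ 0 → j ∈ E
  sum : ∑ j ∈ E, a j = 1

theorem sum_le_of_supp {E : Finset ℕ+} {a : ℕ+ → ℝ} (h0 : ∀ j, 0 ≤ a j)
    (hs : ∀ j, a j ≠ 0 → j ∈ E) (F : Finset ℕ+) : ∑ j ∈ F, a j ≤ ∑ j ∈ E, a j :=
  calc ∑ j ∈ F, a j = ∑ j ∈ F ∩ E, a j :=
        (sum_subset inter_subset_left fun j h h' => by
          by_contra h0
          exact h' (mem_inter.2 ⟨h, hs j h0⟩)).symm
    _ ≤ _ := sum_le_sum_of_subset_of_nonneg inter_subset_right fun j _ _ => h0 j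

/-- A family of disjointly supported convex combinations inside one set of `S_{m+1}`,
each of small `S_m` norm. -/
structure Fam (m p : ℕ) (ε : ℝ) {ι : Type} (E : Finset ℕ+) (D : ι → Finset ℕ+)
    (a : ι → ℕ+ → ℝ) : Prop where
  mem : E ∈ Schreier (m + 1)
  gt : ∀ j ∈ E, p < (j : ℕ)
  sub : ∀ i, D i ⊆ E
  disj : ∀ i i', i ≠ i' → Disjoint (D i) (D i')
  nonneg : ∀ i j, 0 ≤ a i j
  supp : ∀ i j, a i j ≠ 0 → j ∈ D i
  sum : ∀ i, ∑ j ∈ D i, a i j = 1
  bd : ∀ i, Bd m (a i) ε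

theorem fam_of_blk {m : ℕ}
    (h : ∀ ε : ℝ, 0 < ε → ∀ p, ∃ E a, Blk m p E a ∧ ∀ m', m = m' + 1 → Bd m' a ε)
    {ε : ℝ} (hε : 0 < ε) (p₀ : ℕ) (ι : Type) [Fintype ι] [Nonempty ι] :
    ∃ E D a, Fam (ι := ι) m p₀ ε E D a := by
  obtain ⟨L, hL⟩ := exists_nat_gt (2 / ε)
  have hL0 : (0 : ℝ) < L := lt_trans (by positivity) hL
  have hL1 : 0 < L := Nat.cast_pos.1 hL0
  obtain ⟨K, hK⟩ : ∃ K, Fintype.card ι * L = K + 1 :=
    ⟨Fintype.card ι * L - 1, by have := Nat.mul_pos (Fintype.card_pos (α := ι)) hL1; omega⟩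
  obtain ⟨p, x, hp0, hp, hx, hxp⟩ := exists_seq (α := fun _ => Finset ℕ+ × (ℕ+ → ℝ))
    (fun _ x => x.1)
    (fun _ q x => Blk m q x.1 x.2 ∧ ∀ m', m = m' + 1 → Bd m' x.2 (ε / 2 / (q + 1)))
    (fun _ q => by
      obtain ⟨E, a, hE⟩ := h (ε / 2 / (q + 1)) (by positivity) q
      exact ⟨(E, a), hE⟩) (max p₀ (K + 1))
  have hlt : ∀ l l', l < l' → ∀ j ∈ (x l).1, ∀ j' ∈ (x l').1, j < j' := by
    intro l l' hl j hj j' hj'
    exact (PNat.coe_lt_coe _ _).1
      (lt_of_le_of_lt ((hxp l j hj).trans (hp hl)) ((hx l').1.gt j' hj'))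
  have hdisj : ∀ l l', l ≠ l' → ∀ j ∈ (x l).1, j ∉ (x l').1 := by
    intro l l' hl j hj hj'
    rcases lt_or_gt_of_ne hl with h | h
    · exact lt_irrefl _ (hlt _ _ h j hj j hj')
    · exact lt_irrefl _ (hlt _ _ h j hj' j hj)
  have hone : ∀ l F, ∑ j ∈ F, (x l).2 j ≤ 1 := fun l F =>
    (sum_le_of_supp (hx l).1.nonneg (hx l).1.supp F).trans (hx l).1.sum.le
  have hbd : ∀ s : Finset ℕ, Bd m (fun j => ∑ l ∈ s, (x l).2 j) (1 + s.card * (ε / 2)) := by
    intro s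
    rcases m with _ | m
    · rintro F (rfl | ⟨j, rfl⟩)
      · simp; positivity
      · rw [sum_singleton]
        refine le_trans ?_ (le_add_of_nonneg_right (by positivity))
        by_cases hj : ∃ l ∈ s, j ∈ (x l).1
        · obtain ⟨l, hl, hjl⟩ := hj
          rw [sum_eq_single_of_mem l hl fun l' _ hl' => by
            by_contra h0
            exact hdisj l' l hl' j ((hx l').1.supp j h0) hjl]
          simpa using hone l {j}
        · rw [sum_eq_zero fun l hl => by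
            by_contra h0
            exact hj ⟨l, hl, (hx l).1.supp j h0⟩]
          exact zero_le_one
    · have := glue (m := m) hp (y := fun l => (x l).2) (fun l => (hx l).1.nonneg)
        (fun l j hj => hxp l j ((hx l).1.supp j hj)) hone (δ := fun l => ε / 2 / (p l + 1))
        (η := fun _ => ε / 2) (fun l => (hx l).2 m rfl) (fun l => by
          rw [mul_div_assoc', div_le_iff₀ (by positivity)]
          nlinarith) s
      simpa using this
  let e := Fintype.equivFin ι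
  let g : ι → Finset ℕ := fun i => Ico ((e i : ℕ) * L) (((e i : ℕ) + 1) * L)
  have hg : ∀ i, (g i).card = L := fun i => by
    simp only [g, Nat.card_Ico]
    rw [add_mul, one_mul, Nat.add_sub_cancel_left]
  have hgK : ∀ i, ∀ l ∈ g i, l < K + 1 := fun i l hl => by
    rw [← hK]
    exact lt_of_lt_of_le (mem_Ico.1 hl).2 (Nat.mul_le_mul_right _ (e i).2)
  have hgd : ∀ i i', i ≠ i' → ∀ l ∈ g i, l ∉ g i' := fun i i' hi l hl hl' => by
    have h1 := mem_Ico.1 hl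
    have h2 := mem_Ico.1 hl'
    have h3 := Nat.lt_of_mul_lt_mul_right (lt_of_le_of_lt h1.1 h2.2)
    have h4 := Nat.lt_of_mul_lt_mul_right (lt_of_le_of_lt h2.1 h1.2)
    exact hi (e.injective (Fin.ext (by omega)))
  refine ⟨univ.biUnion fun l : Fin (K + 1) => (x l).1, fun i => (g i).biUnion fun l => (x l).1,
    fun i j => (∑ l ∈ g i, (x l).2 j) / L, Or.inr ⟨K, fun l => (x l).1, fun l => ⟨?_, (hx l).1.mem⟩,
      fun l l' hl => hlt _ _ hl, fun a ha => ?_, rfl⟩, fun j hj => ?_, fun i j hj => ?_,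
    fun i i' hi => ?_, fun i j => div_nonneg (sum_nonneg fun l _ => (hx l).1.nonneg j) hL0.le,
    fun i j hj => ?_, fun i => ?_, fun i F hF => ?_⟩
  · rw [nonempty_iff_ne_empty]
    intro h0
    have := (hx l).1.sum
    rw [show (x l).1 = ∅ from h0, sum_empty] at this
    exact zero_ne_one this
  · have := (hx 0).1.gt a ha
    rw [hp0] at this
    omega
  · obtain ⟨l, -, hl⟩ := mem_biUnion.1 hj
    have h1 := (hx l).1.gt j hl
    have h2 := hp (Nat.zero_le l)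
    omega
  · obtain ⟨l, hl, hjl⟩ := mem_biUnion.1 hj
    exact mem_biUnion.2 ⟨⟨l, hgK i l hl⟩, mem_univ _, hjl⟩
  · rw [disjoint_left]
    intro j hj hj'
    obtain ⟨l, hl, hjl⟩ := mem_biUnion.1 hj
    obtain ⟨l', hl', hjl'⟩ := mem_biUnion.1 hj'
    exact hdisj l l' (fun h => hgd i i' hi l hl (h ▸ hl')) j hjl hjl'
  · obtain ⟨l, hl, h0⟩ := exists_ne_zero_of_sum_ne_zero (div_ne_zero_iff.1 hj).1
    exact mem_biUnion.2 ⟨l, hl, (hx l).1.supp j h0⟩
  · rw [← sum_div, sum_comm, div_eq_one_iff_eq hL0.ne', ← hg i, card_eq_sum_ones, Nat.cast_sum]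
    refine sum_congr rfl fun l hl => ?_
    rw [Nat.cast_one, ← (hx l).1.sum]
    refine (sum_subset (fun j hj => mem_biUnion.2 ⟨l, hl, hj⟩) fun j _ hj => ?_).symm
    by_contra h0
    exact hj ((hx l).1.supp j h0)
  · rw [← sum_div, div_le_iff₀ hL0]
    refine (hbd (g i) F hF).trans ?_
    rw [hg i]
    rw [div_lt_iff₀ hε] at hL
    nlinarith

theorem exists_blk (m : ℕ) :
    ∀ ε : ℝ, 0 < ε → ∀ p, ∃ E a, Blk m p E a ∧ ∀ m', m = m' + 1 → Bd m' a ε := by
  induction m with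
  | zero =>
    intro ε _ p
    refine ⟨{p.succPNat}, fun j => if j = p.succPNat then 1 else 0,
      ⟨singleton_mem _ _, by simp, fun j => by positivity, by simp, by simp⟩, by simp⟩
  | succ m ih =>
    intro ε hε p
    obtain ⟨E, D, a, h⟩ := fam_of_blk ih hε p Unit
    refine ⟨E, a (), ⟨h.mem, h.gt, h.nonneg (), fun j hj => h.sub () (h.supp () j hj), ?_⟩, ?_⟩
    · rw [← h.sum ()]
      refine (sum_subset (h.sub ()) fun j _ hj => ?_).symm
      by_contra h0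
      exact hj (h.supp () j h0)
    · intro m' hm
      obtain rfl : m = m' := by omega
      exact h.bd ()

theorem exists_fam (m : ℕ) {ε : ℝ} (hε : 0 < ε) (p : ℕ) (ι : Type) [Fintype ι] [Nonempty ι] :
    ∃ E D a, Fam (ι := ι) m p ε E D a :=
  fam_of_blk (exists_blk m) hε p ι

end Pool.Agent.Lib.MP_3cdc4e_an
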