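import Mathlib

/-! Schreier families, Schreier spaces, strictly singular operators. -/

namespace Pool.Agent.Lib.MP_3cdc4e_an

/-- The Schreier families `S_n` of finite subsets of the positive integers. -/
def Schreier : ℕ → Set (Finset ℕ+)
  | 0 => {F | F = ∅ ∨ ∃ k : ℕ+, F = {k}}
  | n + 1 => {F | F = ∅ ∨ ∃ (k : ℕ) (G : Fin (k + 1) → Finset ℕ+),
      (∀ j, (G j).Nonempty ∧ G j ∈ Schreier n) ∧
      (∀ i j, i < j → ∀ a ∈ G i, ∀ b ∈ G j, a < b) ∧
      (∀ a ∈ G 0, k + 1 ≤ (a : ℕ)) ∧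
      F = Finset.univ.biUnion G}

/-- The finitely supported scalar sequences, to be normed by the Schreier norm of order `n`. -/
def C00 (𝕜 : Type) [RCLike 𝕜] (_n : ℕ) : Type := ℕ+ →₀ 𝕜

variable {𝕜 : Type} [RCLike 𝕜] {n : ℕ}

noncomputable instance : AddCommGroup (C00 𝕜 n) := inferInstanceAs (AddCommGroup (ℕ+ →₀ 𝕜))

noncomputable instance : Module 𝕜 (C00 𝕜 n) := inferInstanceAs (Module 𝕜 (ℕ+ →₀ 𝕜))

/-- The `j`-th coordinate of a finitely supported sequence. -/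
def coord (x : C00 𝕜 n) (j : ℕ+) : 𝕜 := (show ℕ+ →₀ 𝕜 from x) j

/-- The Schreier norm of order `n`. -/
noncomputable instance : Norm (C00 𝕜 n) :=
  ⟨fun x => ⨆ F : Schreier n, ∑ j ∈ (F : Finset ℕ+), ‖coord x j‖⟩

theorem empty_mem (n : ℕ) : ∅ ∈ Schreier n := by
  cases n <;> exact Or.inl rfl

theorem singleton_mem (n : ℕ) (k : ℕ+) : {k} ∈ Schreier n := by
  induction n with
  | zero => exact Or.inr ⟨k, rfl⟩
  | succ n ih =>
    exact Or.inr ⟨0, fun _ => {k}, fun _ => ⟨by simp, ih⟩, fun i j h => by omega,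
      fun a _ => a.2, by ext a; simp⟩

theorem sum_le_norm (x : C00 𝕜 n) {F : Finset ℕ+} (hF : F ∈ Schreier n) :
    ∑ j ∈ F, ‖coord x j‖ ≤ ‖x‖ := by
  refine le_ciSup (f := fun F : Schreier n => ∑ j ∈ (F : Finset ℕ+), ‖coord x j‖)
    ⟨∑ j ∈ Finsupp.support x, ‖coord x j‖, ?_⟩ ⟨F, hF⟩
  rintro _ ⟨F, rfl⟩
  calc ∑ j ∈ (F : Finset ℕ+), ‖coord x j‖
      = ∑ j ∈ (F : Finset ℕ+) ∩ Finsupp.support x, ‖coord x j‖ :=
        (Finset.sum_subset Finset.inter_subset_left fun j h h' => by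
          rw [norm_eq_zero]
          exact Finsupp.notMem_support_iff.1 fun hj => h' (Finset.mem_inter.2 ⟨h, hj⟩)).symm
    _ ≤ _ := Finset.sum_le_sum_of_subset_of_nonneg Finset.inter_subset_right
        fun _ _ _ => norm_nonneg _

theorem norm_le {x : C00 𝕜 n} {c : ℝ} (h : ∀ F ∈ Schreier n, ∑ j ∈ F, ‖coord x j‖ ≤ c) :
    ‖x‖ ≤ c :=
  haveI : Nonempty (Schreier n) := ⟨⟨∅, empty_mem n⟩⟩
  ciSup_le fun F => h F F.2

theorem core : NormedSpace.Core 𝕜 (C00 𝕜 n) where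
  norm_nonneg x := by simpa using sum_le_norm x (empty_mem n)
  norm_smul c x := by
    change (⨆ F : Schreier n, ∑ j ∈ (F : Finset ℕ+), ‖c * coord x j‖) =
      ‖c‖ * ⨆ F : Schreier n, ∑ j ∈ (F : Finset ℕ+), ‖coord x j‖
    simp only [Real.mul_iSup_of_nonneg (norm_nonneg c), Finset.mul_sum, norm_mul]
  norm_triangle x y := norm_le fun F hF =>
    (Finset.sum_le_sum fun j _ => norm_add_le (coord x j) (coord y j)).trans <| by
      rw [Finset.sum_add_distrib]
      exact add_le_add (sum_le_norm x hF) (sum_le_norm y hF)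
  norm_eq_zero_iff x := by
    refine ⟨fun h => Finsupp.ext fun j => ?_, fun h => ?_⟩
    · change coord x j = 0
      simpa [h] using sum_le_norm x (singleton_mem n j)
    · subst h
      exact le_antisymm (norm_le fun F _ => (Finset.sum_eq_zero fun j _ => norm_zero).le)
        (by simpa using sum_le_norm (0 : C00 𝕜 n) (empty_mem n))

noncomputable instance : NormedAddCommGroup (C00 𝕜 n) := NormedAddCommGroup.ofCore core

noncomputable instance : NormedSpace 𝕜 (C00 𝕜 n) := NormedSpace.ofCore core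

/-- The Schreier space `X[S_n]`: the completion of `c_00` under the Schreier norm. -/
abbrev SchreierSpace (𝕜 : Type) [RCLike 𝕜] (n : ℕ) : Type := UniformSpace.Completion (C00 𝕜 n)

/-- `T` is strictly singular: it is bounded below on no closed infinite-dimensional subspace. -/
def StrictlySingular {X : Type} [NormedAddCommGroup X] [NormedSpace 𝕜 X] (T : X →L[𝕜] X) : Prop :=
  ∀ W : Submodule 𝕜 X, IsClosed (W : Set X) → ¬ FiniteDimensional 𝕜 W →
    ¬ ∃ c : ℝ, 0 < c ∧ ∀ x ∈ W, c * ‖x‖ ≤ ‖T x‖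

/-- The operators on `X` that factor through `c_0`. -/
def FactorC0 (𝕜 : Type) [RCLike 𝕜] (X : Type) [NormedAddCommGroup X] [NormedSpace 𝕜 X] :
    Set (X →L[𝕜] X) :=
  {T | ∃ (A : ZeroAtInftyContinuousMap ℕ 𝕜 →L[𝕜] X) (B : X →L[𝕜] ZeroAtInftyContinuousMap ℕ 𝕜),
    T = A.comp B}

end Pool.Agent.Lib.MP_3cdc4e_an
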