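import Mathlib

/-! Rademacher sums and Grothendieck's inequality with constant 8 (truncation proof). -/

namespace Pool.Agent.Lib.MP_3cdc4e_an

open Finset

/-- The sign attached to a Boolean. -/
def sg (b : Bool) : ℝ := if b then 1 else -1

@[simp] theorem sg_true : sg true = 1 := rfl
@[simp] theorem sg_false : sg false = -1 := rfl

theorem abs_sg (b : Bool) : |sg b| = 1 := by cases b <;> simp

theorem sg_mul_self (b : Bool) : sg b * sg b = 1 := by cases b <;> simp

/-- Rademacher sum. -/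
def rad {d : ℕ} (u : Fin d → ℝ) (ε : Fin d → Bool) : ℝ := ∑ i, u i * sg (ε i)

theorem sum_cons {d : ℕ} (f : (Fin (d + 1) → Bool) → ℝ) :
    ∑ ε, f ε = ∑ ε : Fin d → Bool, (f (Fin.cons true ε) + f (Fin.cons false ε)) := by
  rw [← (Fin.consEquiv fun _ : Fin (d + 1) => Bool).sum_comp, Fintype.sum_prod_type_right]
  refine Finset.sum_congr rfl fun ε _ => ?_
  rw [Fintype.sum_bool]
  rfl

theorem rad_cons {d : ℕ} (u : Fin (d + 1) → ℝ) (b : Bool) (ε : Fin d → Bool) :
    rad u (Fin.cons b ε) = u 0 * sg b + rad (fun i => u i.succ) ε := by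
  simp [rad, Fin.sum_univ_succ]

theorem sum_rad_mul {d : ℕ} (u v : Fin d → ℝ) :
    ∑ ε, rad u ε * rad v ε = 2 ^ d * ∑ i, u i * v i := by
  induction d with
  | zero => simp [rad]
  | succ d ih =>
    rw [sum_cons, Fin.sum_univ_succ]
    have : ∀ ε : Fin d → Bool,
        rad u (Fin.cons true ε) * rad v (Fin.cons true ε) +
          rad u (Fin.cons false ε) * rad v (Fin.cons false ε) =
        2 * (u 0 * v 0) + 2 * (rad (fun i => u i.succ) ε * rad (fun i => v i.succ) ε) := by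
      intro ε
      simp only [rad_cons, sg_true, sg_false]
      ring
    simp only [this, Finset.sum_add_distrib, ← Finset.mul_sum, ih]
    simp only [Finset.sum_const, Finset.card_univ, Fintype.card_fun, Fintype.card_bool,
      Fintype.card_fin, nsmul_eq_mul, Nat.cast_pow, Nat.cast_ofNat]
    ring

theorem sum_rad_sq {d : ℕ} (u : Fin d → ℝ) :
    ∑ ε, rad u ε ^ 2 = 2 ^ d * ∑ i, u i ^ 2 := by
  simpa only [sq] using sum_rad_mul u u

theorem sum_rad_four {d : ℕ} (u : Fin d → ℝ) :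
    ∑ ε, rad u ε ^ 4 ≤ 3 * 2 ^ d * (∑ i, u i ^ 2) ^ 2 := by
  induction d with
  | zero => simp [rad]
  | succ d ih =>
    rw [sum_cons, Fin.sum_univ_succ]
    have : ∀ ε : Fin d → Bool,
        rad u (Fin.cons true ε) ^ 4 + rad u (Fin.cons false ε) ^ 4 =
        2 * u 0 ^ 4 + 12 * u 0 ^ 2 * rad (fun i => u i.succ) ε ^ 2 +
          2 * rad (fun i => u i.succ) ε ^ 4 := by
      intro ε
      simp only [rad_cons, sg_true, sg_false]
      ring
    simp only [this, Finset.sum_add_distrib, ← Finset.mul_sum, sum_rad_sq]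
    simp only [Finset.sum_const, Finset.card_univ, Fintype.card_fun, Fintype.card_bool,
      Fintype.card_fin, nsmul_eq_mul, Nat.cast_pow, Nat.cast_ofNat]
    have h1 := ih fun i => u i.succ
    have h2 : (0 : ℝ) ≤ 2 ^ d * u 0 ^ 4 := by positivity
    rw [pow_succ (2 : ℝ) d]
    nlinarith

section

variable {ι κ : Type} [Fintype ι] [Fintype κ] (a : ι → κ → ℝ)

/-- The vector form of the bilinear form is bounded by `G` on unit vectors. -/
def VecBd (G : ℝ) : Prop :=
  ∀ (d : ℕ) (u : ι → Fin d → ℝ) (v : κ → Fin d → ℝ), (∀ i, ∑ k, u i k ^ 2 ≤ 1) →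
    (∀ j, ∑ k, v j k ^ 2 ≤ 1) → |∑ i, ∑ j, a i j * ∑ k, u i k * v j k| ≤ G

variable {a}

theorem VecBd.scale {G : ℝ} (h : VecBd a G) {D : Type} [Fintype D] (u : ι → D → ℝ)
    (v : κ → D → ℝ) {U V : ℝ} (hU : 0 < U) (hV : 0 < V) (hu : ∀ i, ∑ k, u i k ^ 2 ≤ U ^ 2)
    (hv : ∀ j, ∑ k, v j k ^ 2 ≤ V ^ 2) :
    |∑ i, ∑ j, a i j * ∑ k, u i k * v j k| ≤ G * (U * V) := by
  let e := (Fintype.equivFin D).symm
  have h1 := h _ (fun i k => u i (e k) / U) (fun j k => v j (e k) / V) (fun i => by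
      simp only [div_pow, ← Finset.sum_div]
      rw [e.sum_comp fun k => u i k ^ 2, div_le_one (by positivity)]
      exact hu i) (fun j => by
      simp only [div_pow, ← Finset.sum_div]
      rw [e.sum_comp fun k => v j k ^ 2, div_le_one (by positivity)]
      exact hv j)
  have h2 : ∑ i, ∑ j, a i j * ∑ k, u i (e k) / U * (v j (e k) / V) =
      (∑ i, ∑ j, a i j * ∑ k, u i k * v j k) / (U * V) := by
    rw [Finset.sum_div]
    refine Finset.sum_congr rfl fun i _ => ?_
    rw [Finset.sum_div]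
    refine Finset.sum_congr rfl fun j _ => ?_
    rw [e.sum_comp fun k => u i k / U * (v j k / V), mul_div_assoc, Finset.sum_div]
    congr 1
    refine Finset.sum_congr rfl fun k _ => ?_
    field_simp
  rwa [h2, abs_div, abs_of_pos (mul_pos hU hV), div_le_iff₀ (mul_pos hU hV)] at h1

theorem vecBd_start : VecBd a (∑ i, ∑ j, |a i j|) := by
  intro d u v hu hv
  refine (Finset.abs_sum_le_sum_abs _ _).trans (Finset.sum_le_sum fun i _ => ?_)
  refine (Finset.abs_sum_le_sum_abs _ _).trans (Finset.sum_le_sum fun j _ => ?_)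
  rw [abs_mul]
  refine mul_le_of_le_one_right (abs_nonneg _) ?_
  have h1 := Finset.sum_mul_sq_le_sq_mul_sq Finset.univ (u i) (v j)
  have h2 : (∑ k, u i k * v j k) ^ 2 ≤ 1 :=
    h1.trans (mul_le_one₀ (hu i) (Finset.sum_nonneg fun _ _ => sq_nonneg _) (hv j))
  exact abs_le_one_iff_mul_self_le_one.2 (by simpa [sq] using h2)

/-- Truncation at level 2. -/
noncomputable def tr (x : ℝ) : ℝ := max (-2) (min 2 x)

theorem abs_tr_le (x : ℝ) : |tr x| ≤ 2 := by
  unfold tr
  rw [abs_le]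
  constructor
  · exact le_max_left _ _
  · exact max_le (by norm_num) (min_le_left _ _)

theorem tr_sq_le (x : ℝ) : tr x ^ 2 ≤ x ^ 2 := by
  unfold tr
  rcases le_total 2 x with h | h
  · rw [min_eq_left h, max_eq_right (by norm_num)]; nlinarith
  · rw [min_eq_right h]
    rcases le_total (-2) x with h' | h'
    · rw [max_eq_right h']
    · rw [max_eq_left h']; nlinarith

theorem sub_tr_sq_le (x : ℝ) : (x - tr x) ^ 2 ≤ x ^ 4 / 64 := by
  have key : ∀ y : ℝ, 2 ≤ y → (y - 2) ^ 2 ≤ y ^ 4 / 64 := fun y hy => by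
    have h1 : y - 2 ≤ y ^ 2 / 8 := by nlinarith [sq_nonneg (y - 4)]
    calc (y - 2) ^ 2 ≤ (y ^ 2 / 8) ^ 2 := pow_le_pow_left₀ (by linarith) h1 2
      _ = y ^ 4 / 64 := by ring
  unfold tr
  rcases le_total 2 x with h | h
  · rw [min_eq_left h, max_eq_right (by norm_num)]; exact key x h
  · rw [min_eq_right h]
    rcases le_total (-2) x with h' | h'
    · rw [max_eq_right h']; simp; positivity
    · rw [max_eq_left h']
      have := key (-x) (by linarith)
      calc (x - -2) ^ 2 = (-x - 2) ^ 2 := by ring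
        _ ≤ (-x) ^ 4 / 64 := this
        _ = x ^ 4 / 64 := by ring

theorem VecBd.step {G C : ℝ} (h : VecBd a G)
    (hC : ∀ (s : ι → ℝ) (t : κ → ℝ), (∀ i, |s i| ≤ 1) → (∀ j, |t j| ≤ 1) →
      |∑ i, ∑ j, a i j * (s i * t j)| ≤ C) : VecBd a (4 * C + G / 2) := by
  intro d u v hu hv
  set N : ℝ := 2 ^ d with hN
  have hN0 : 0 < N := by positivity
  have hs : 0 < √N := Real.sqrt_pos.2 hN0
  have hs2 : √N ^ 2 = N := Real.sq_sqrt hN0.le
  have four : ∀ w : Fin d → ℝ, ∑ k, w k ^ 2 ≤ 1 →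
      ∑ ε, (rad w ε - tr (rad w ε)) ^ 2 ≤ (√N / 4) ^ 2 := fun w hw => by
    have h1 : (∑ k, w k ^ 2) ^ 2 ≤ 1 :=
      pow_le_one₀ (Finset.sum_nonneg fun _ _ => sq_nonneg _) hw
    calc ∑ ε, (rad w ε - tr (rad w ε)) ^ 2 ≤ ∑ ε, rad w ε ^ 4 / 64 :=
          Finset.sum_le_sum fun ε _ => sub_tr_sq_le _
      _ = (∑ ε, rad w ε ^ 4) / 64 := by rw [Finset.sum_div]
      _ ≤ 3 * N * (∑ k, w k ^ 2) ^ 2 / 64 := by gcongr; exact sum_rad_four w
      _ ≤ 3 * N * 1 / 64 := by gcongr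
      _ ≤ (√N / 4) ^ 2 := by rw [div_pow, hs2]; linarith
  have two : ∀ w : Fin d → ℝ, ∑ k, w k ^ 2 ≤ 1 → ∑ ε, rad w ε ^ 2 ≤ √N ^ 2 := fun w hw => by
    rw [sum_rad_sq, hs2]
    exact mul_le_of_le_one_right hN0.le hw
  have two' : ∀ w : Fin d → ℝ, ∑ k, w k ^ 2 ≤ 1 → ∑ ε, tr (rad w ε) ^ 2 ≤ √N ^ 2 := fun w hw =>
    (Finset.sum_le_sum fun ε _ => tr_sq_le _).trans (two w hw)
  have h1 := h.scale (fun i ε => rad (u i) ε - tr (rad (u i) ε)) (fun j ε => rad (v j) ε)
    (by positivity) hs (fun i => four _ (hu i)) (fun j => two _ (hv j))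
  have h2 := h.scale (fun i ε => tr (rad (u i) ε)) (fun j ε => rad (v j) ε - tr (rad (v j) ε))
    hs (by positivity) (fun i => two' _ (hu i)) (fun j => four _ (hv j))
  have h3 : |∑ i, ∑ j, a i j * ∑ ε, tr (rad (u i) ε) * tr (rad (v j) ε)| ≤ N * (4 * C) := by
    have e : ∑ i, ∑ j, a i j * ∑ ε, tr (rad (u i) ε) * tr (rad (v j) ε) =
        ∑ ε : Fin d → Bool, 4 * ∑ i, ∑ j,
          a i j * (tr (rad (u i) ε) / 2 * (tr (rad (v j) ε) / 2)) := by
      simp only [Finset.mul_sum]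
      rw [Finset.sum_comm (s := (univ : Finset (Fin d → Bool)))]
      refine Finset.sum_congr rfl fun i _ => ?_
      rw [Finset.sum_comm]
      refine Finset.sum_congr rfl fun j _ => Finset.sum_congr rfl fun ε _ => by ring
    rw [e]
    refine (Finset.abs_sum_le_sum_abs _ _).trans ?_
    refine (Finset.sum_le_sum (g := fun _ => 4 * C) fun ε _ => ?_).trans ?_
    · rw [abs_mul, abs_of_pos (by norm_num : (0 : ℝ) < 4)]
      gcongr
      refine hC _ _ (fun i => ?_) (fun j => ?_) <;>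
      · rw [abs_div, abs_two, div_le_one (by norm_num)]
        exact abs_tr_le _
    · simp [hN]
  have e : N * ∑ i, ∑ j, a i j * ∑ k, u i k * v j k =
      (∑ i, ∑ j, a i j * ∑ ε, (rad (u i) ε - tr (rad (u i) ε)) * rad (v j) ε) +
      (∑ i, ∑ j, a i j * ∑ ε, tr (rad (u i) ε) * (rad (v j) ε - tr (rad (v j) ε))) +
      ∑ i, ∑ j, a i j * ∑ ε, tr (rad (u i) ε) * tr (rad (v j) ε) := by
    rw [Finset.mul_sum, ← Finset.sum_add_distrib, ← Finset.sum_add_distrib]
    refine Finset.sum_congr rfl fun i _ => ?_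
    rw [Finset.mul_sum, ← Finset.sum_add_distrib, ← Finset.sum_add_distrib]
    refine Finset.sum_congr rfl fun j _ => ?_
    rw [← mul_add, ← mul_add, ← Finset.sum_add_distrib, ← Finset.sum_add_distrib,
      mul_left_comm, ← sum_rad_mul]
    congr 1
    refine Finset.sum_congr rfl fun ε _ => by ring
  have h4 : N * |∑ i, ∑ j, a i j * ∑ k, u i k * v j k| ≤ N * (4 * C + G / 2) := by
    rw [← abs_of_pos hN0, ← abs_mul, abs_of_pos hN0, e]
    refine (abs_add_three _ _ _).trans ?_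
    have e1 : √N / 4 * √N = N / 4 := by rw [div_mul_eq_mul_div, ← sq, hs2]
    have e2 : √N * (√N / 4) = N / 4 := by rw [mul_comm, e1]
    rw [e1] at h1
    rw [e2] at h2
    linarith
  exact le_of_mul_le_mul_left h4 hN0

/-- Grothendieck's inequality with constant 8. -/
theorem grothendieck {C : ℝ}
    (hC : ∀ (s : ι → ℝ) (t : κ → ℝ), (∀ i, |s i| ≤ 1) → (∀ j, |t j| ≤ 1) →
      |∑ i, ∑ j, a i j * (s i * t j)| ≤ C) : VecBd a (8 * C) := by
  have hC0 : 0 ≤ C := (abs_nonneg _).trans (hC 0 0 (by simp) (by simp))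
  set G := ∑ i, ∑ j, |a i j|
  have h : ∀ m : ℕ, VecBd a (8 * C + G * (1 / 2) ^ m) := by
    intro m
    induction m with
    | zero => exact fun d u v hu hv => (vecBd_start d u v hu hv).trans (by simp [G, hC0])
    | succ m ih =>
      have := ih.step hC
      convert this using 1
      ring
  intro d u v hu hv
  have hl : Filter.Tendsto (fun m : ℕ => 8 * C + G * (1 / 2) ^ m) Filter.atTop
      (nhds (8 * C + G * 0)) :=
    tendsto_const_nhds.add
      ((tendsto_pow_atTop_nhds_zero_of_lt_one (by norm_num) (by norm_num)).const_mul G)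
  simpa using ge_of_tendsto' hl fun m => h m d u v hu hv

end

end Pool.Agent.Lib.MP_3cdc4e_an
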