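import Pool.Agent.Lib.MP_3cdc4e_an.Avg

/-! Weak `l1` and `l2` estimates in Schreier spaces of positive order. -/

namespace Pool.Agent.Lib.MP_3cdc4e_an

open Finset

theorem weak_l1 {n : ℕ} {f : ℕ+ → ℝ} {s t : ℝ} (hs : Bd (n + 1) f s) (ht : 0 ≤ t)
    (A : Finset ℕ+) (hA : ∀ j ∈ A, t ≤ f j) : A.card * t ≤ 2 * s := by
  set m := (A.card + 1) / 2 with hm
  have h1 : (A.filter fun j : ℕ+ => ¬ m ≤ (j : ℕ)).card ≤ m - 1 := by
    rw [← Nat.card_Ico 1 m]
    refine card_le_card_of_injOn (fun j : ℕ+ => (j : ℕ)) (fun j hj => ?_) PNat.coe_injective.injOn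
    have := (mem_filter.1 (mem_coe.1 hj)).2
    exact mem_coe.2 (mem_Ico.2 ⟨j.2, by simpa using this⟩)
  have h2 := card_filter_add_card_filter_not (s := A) fun j : ℕ+ => m ≤ (j : ℕ)
  obtain ⟨F, hF, hc⟩ := exists_subset_card_eq (s := A.filter fun j : ℕ+ => m ≤ (j : ℕ)) (n := m)
    (by omega)
  have h3 := hs F (mem_of_card n fun a ha => hc ▸ (mem_filter.1 (hF ha)).2)
  have h4 : (m : ℝ) * t ≤ s := by
    refine le_trans ?_ h3
    rw [← hc, ← nsmul_eq_mul]
    exact card_nsmul_le_sum _ _ _ fun j hj => hA j (mem_filter.1 (hF hj)).1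
  have h5 : (A.card : ℝ) ≤ 2 * m := by exact_mod_cast (by omega : A.card ≤ 2 * m)
  nlinarith

theorem sq_sum_le {n : ℕ} {f : ℕ+ → ℝ} {s σ : ℝ} (h0 : ∀ j, 0 ≤ f j) (hs : Bd (n + 1) f s)
    (hσ : ∀ j, f j ≤ σ) (A : Finset ℕ+) : ∑ j ∈ A, f j ^ 2 ≤ 8 * σ * s := by
  have key : ∀ (i : ℕ) (t : ℝ), 0 ≤ t →
      ∑ j ∈ A.filter (fun j => f j ≤ t), f j ^ 2 ≤ 8 * t * s + A.card * t ^ 2 * (1 / 4) ^ i := by
    intro i
    induction i with
    | zero =>
      intro t ht
      have h1 : ∑ j ∈ A.filter (fun j => f j ≤ t), f j ^ 2 ≤ A.card * t ^ 2 := by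
        refine (sum_le_card_nsmul _ _ (t ^ 2) fun j hj =>
          pow_le_pow_left₀ (h0 j) (mem_filter.1 hj).2 2).trans ?_
        rw [nsmul_eq_mul]
        gcongr
        exact filter_subset _ _
      have := hs.nonneg
      have : 0 ≤ 8 * t * s := by positivity
      simp only [pow_zero, mul_one]
      linarith
    | succ i ih =>
      intro t ht
      rw [← sum_filter_add_sum_filter_not _ fun j => f j ≤ t / 2, filter_filter, filter_filter]
      have h1 : A.filter (fun j => f j ≤ t ∧ f j ≤ t / 2) = A.filter fun j => f j ≤ t / 2 :=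
        filter_congr fun j _ => ⟨fun h => h.2, fun h => ⟨by linarith, h⟩⟩
      have h2 := ih (t / 2) (by positivity)
      set B := A.filter fun j => f j ≤ t ∧ ¬ f j ≤ t / 2
      have h3 := weak_l1 hs (t := t / 2) (by positivity) B fun j hj =>
        (not_le.1 (mem_filter.1 hj).2.2).le
      have h4 : ∑ j ∈ B, f j ^ 2 ≤ B.card * t ^ 2 := by
        rw [← nsmul_eq_mul]
        exact sum_le_card_nsmul _ _ _ fun j hj =>
          pow_le_pow_left₀ (h0 j) (mem_filter.1 hj).2.1 2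
      rw [h1, pow_succ (1 / 4 : ℝ)]
      nlinarith
  have hσ0 : 0 ≤ σ := (h0 1).trans (hσ 1)
  have hl : Filter.Tendsto (fun i : ℕ => 8 * σ * s + A.card * σ ^ 2 * (1 / 4) ^ i) Filter.atTop
      (nhds (8 * σ * s + A.card * σ ^ 2 * 0)) :=
    tendsto_const_nhds.add
      ((tendsto_pow_atTop_nhds_zero_of_lt_one (by norm_num) (by norm_num)).const_mul _)
  have := ge_of_tendsto' hl fun i => key i σ hσ0
  rwa [filter_true_of_mem fun j _ => hσ j, mul_zero, add_zero] at this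

end Pool.Agent.Lib.MP_3cdc4e_an
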