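import Pool.Agent.Lib.MP_3cdc4e_an.Op

/-! A strictly singular operator on `X[S_n]` far from the operators factoring through `c_0`. -/

namespace Pool.Agent.Lib.MP_3cdc4e_an

open Finset UniformSpace

variable {𝕜 : Type} [RCLike 𝕜] {n : ℕ}

theorem norm_coord_le (x : C00 𝕜 n) (j : ℕ+) : ‖coord x j‖ ≤ ‖x‖ := by
  simpa using sum_le_norm x (singleton_mem n j)

/-- Coordinate functionals on the Schreier space. -/
noncomputable def φ (j : ℕ+) : SchreierSpace 𝕜 n →L[𝕜] 𝕜 :=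
  ((coordL j).mkContinuous 1 fun x => by
    simpa [coordL_apply] using norm_coord_le x j).fromCompletion

theorem φ_coe (j : ℕ+) (x : C00 𝕜 n) : φ j (x : SchreierSpace 𝕜 n) = coord x j :=
  ContinuousLinearMap.fromCompletion_apply_coe _ _

theorem sum_φ_le {F : Finset ℕ+} (hF : F ∈ Schreier n) (y : SchreierSpace 𝕜 n) :
    ∑ j ∈ F, ‖φ j y‖ ≤ ‖y‖ := by
  induction y using Completion.induction_on with
  | hp => exact isClosed_le (by fun_prop) continuous_norm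
  | ih x => simpa only [φ_coe, Completion.norm_coe] using sum_le_norm x hF

theorem norm_φ_le (j : ℕ+) (y : SchreierSpace 𝕜 n) : ‖φ j y‖ ≤ ‖y‖ := by
  simpa using sum_φ_le (singleton_mem n j) y

theorem φ_small (y : SchreierSpace 𝕜 n) {δ : ℝ} (hδ : 0 < δ) :
    ∃ N : ℕ, ∀ j : ℕ+, N < j → ‖φ j y‖ ≤ δ := by
  obtain ⟨x, hx⟩ := Completion.denseRange_coe.exists_dist_lt y hδ
  refine ⟨(Finsupp.support x).sup fun j => (j : ℕ), fun j hj => ?_⟩
  have h0 : φ j (x : SchreierSpace 𝕜 n) = 0 := by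
    rw [φ_coe]
    by_contra h
    exact absurd (Finset.le_sup (f := fun j : ℕ+ => (j : ℕ)) (Finsupp.mem_support_iff.2 h))
      (not_le.2 hj)
  have := norm_φ_le j (y - (x : SchreierSpace 𝕜 n))
  rw [map_sub, h0, sub_zero, ← dist_eq_norm] at this
  exact this.trans hx.le

theorem strictlySingular_of_bound (T : SchreierSpace 𝕜 (n + 1) →L[𝕜] SchreierSpace 𝕜 (n + 1))
    (hT : ∀ (y : SchreierSpace 𝕜 (n + 1)) (σ : ℝ), (∀ j, ‖φ j y‖ ≤ σ) → ‖T y‖ ^ 2 ≤ 72 * σ * ‖y‖) :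
    StrictlySingular T := by
  rintro W - hW ⟨c, hc, hcW⟩
  have h1 : ∀ y ∈ W, ∀ σ : ℝ, (∀ j, ‖φ j y‖ ≤ σ) → c ^ 2 * ‖y‖ ≤ 72 * σ := by
    intro y hy σ hσ
    have h2 := (pow_le_pow_left₀ (by positivity) (hcW y hy) 2).trans (hT y σ hσ)
    rcases (norm_nonneg y).eq_or_lt with h | h
    · have := (norm_nonneg _).trans (hσ 1)
      rw [← h]; linarith
    · refine le_of_mul_le_mul_right ?_ h
      nlinarith
  have h2 : ∀ N : ℕ, ∃ z ∈ W, ∃ j₀ : ℕ+, (∀ j : ℕ+, (j : ℕ) ≤ N → φ j z = 0) ∧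
      (∀ j, ‖φ j z‖ ≤ 1) ∧ 3 / 4 ≤ ‖φ j₀ z‖ := by
    intro N
    let L : W →ₗ[𝕜] (Fin N → 𝕜) :=
      LinearMap.pi fun i => (φ (Nat.succPNat i)).toLinearMap.comp W.subtype
    have hL : ¬ Function.Injective L := fun h => hW (Module.Finite.of_injective L h)
    rw [injective_iff_map_eq_zero] at hL
    push Not at hL
    obtain ⟨z, hz, hz0⟩ := hL
    have hzj : ∀ j : ℕ+, (j : ℕ) ≤ N → φ j (z : SchreierSpace 𝕜 (n + 1)) = 0 := fun j hj => by
      have := congrFun hz ⟨j.natPred, by have := j.natPred_add_one; omega⟩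
      simpa [L] using this
    set σ := ⨆ j, ‖φ j (z : SchreierSpace 𝕜 (n + 1))‖ with hσ
    have hle : ∀ j, ‖φ j (z : SchreierSpace 𝕜 (n + 1))‖ ≤ σ := fun j =>
      le_ciSup (f := fun j => ‖φ j (z : SchreierSpace 𝕜 (n + 1))‖)
        ⟨‖(z : SchreierSpace 𝕜 (n + 1))‖, by rintro _ ⟨j, rfl⟩; exact norm_φ_le j _⟩ j
    have hσ0 : 0 < σ := by
      have h3 := h1 z z.2 σ hle
      have h4 : 0 < ‖(z : SchreierSpace 𝕜 (n + 1))‖ := norm_pos_iff.2 (by simpa using hz0)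
      have : 0 < c ^ 2 * ‖(z : SchreierSpace 𝕜 (n + 1))‖ := by positivity
      linarith
    obtain ⟨j₀, hj₀⟩ := exists_lt_of_lt_ciSup (show 3 / 4 * σ < σ by linarith)
    have hn : ∀ j, ‖φ j (((σ⁻¹ : ℝ) : 𝕜) • (z : SchreierSpace 𝕜 (n + 1)))‖ =
        ‖φ j (z : SchreierSpace 𝕜 (n + 1))‖ / σ := fun j => by
      rw [map_smul, norm_smul, RCLike.norm_ofReal, abs_of_pos (inv_pos.2 hσ0), div_eq_inv_mul]
    refine ⟨((σ⁻¹ : ℝ) : 𝕜) • (z : SchreierSpace 𝕜 (n + 1)), W.smul_mem _ z.2, j₀,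
      fun j hj => by rw [map_smul, hzj j hj, smul_zero], fun j => ?_, ?_⟩
    · rw [hn, div_le_one hσ0]; exact hle j
    · rw [hn, le_div_iff₀ hσ0]; exact hj₀.le
  obtain ⟨M, hM⟩ := exists_nat_gt (288 / c ^ 2)
  have h3 : ∀ r : ℕ, ∃ y ∈ W, ∃ F : Finset ℕ+, F.card = r ∧ (∀ j ∈ F, M ≤ (j : ℕ)) ∧
      (∀ j ∈ F, 1 / 2 ≤ ‖φ j y‖) ∧ ∀ j, ‖φ j y‖ ≤ 2 := by
    intro r
    induction r with
    | zero => exact ⟨0, W.zero_mem, ∅, rfl, by simp, by simp, by simp⟩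
    | succ r ih =>
      obtain ⟨y, hy, F, hF, hFM, hFy, hy2⟩ := ih
      obtain ⟨N, hN⟩ := φ_small y (by norm_num : (0 : ℝ) < 1 / 4)
      obtain ⟨z, hz, j₀, hz0, hz1, hj₀⟩ := h2 (max (max N M) (F.sup fun j => (j : ℕ)))
      have hlt : max (max N M) (F.sup fun j => (j : ℕ)) < j₀ := by
        by_contra h
        rw [hz0 j₀ (not_lt.1 h), norm_zero] at hj₀
        norm_num at hj₀
      have hFle : ∀ j ∈ F, (j : ℕ) ≤ max (max N M) (F.sup fun j => (j : ℕ)) := fun j hj =>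
        (Finset.le_sup (f := fun j : ℕ+ => (j : ℕ)) hj).trans (le_max_right _ _)
      have hj₀F : j₀ ∉ F := fun h => absurd (hFle j₀ h) (not_le.2 hlt)
      refine ⟨y + z, W.add_mem hy hz, insert j₀ F, by rw [card_insert_of_notMem hj₀F, hF],
        fun j hj => ?_, fun j hj => ?_, fun j => ?_⟩
      · rcases mem_insert.1 hj with rfl | hj
        · omega
        · exact hFM j hj
      · rw [map_add]
        rcases mem_insert.1 hj with rfl | hj
        · have h4 := hN j (by omega)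
          have h5 := norm_sub_le (φ j y + φ j z) (φ j y)
          rw [add_sub_cancel_left] at h5
          linarith
        · rw [hz0 j (hFle j hj), add_zero]; exact hFy j hj
      · rw [map_add]
        rcases le_or_gt (j : ℕ) (max (max N M) (F.sup fun j => (j : ℕ))) with h | h
        · rw [hz0 j h, add_zero]; exact hy2 j
        · have h4 := hN j (by omega)
          have h5 := hz1 j
          have h6 := norm_add_le (φ j y) (φ j z)
          linarith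
  obtain ⟨y, hy, F, hF, hFM, hFy, hy2⟩ := h3 M
  have h4 := h1 y hy 2 hy2
  have h5 := (card_nsmul_le_sum _ _ _ hFy).trans
    (sum_φ_le (mem_of_card n fun a ha => hF ▸ hFM a ha) y)
  rw [hF, nsmul_eq_mul] at h5
  rw [div_lt_iff₀ (by positivity)] at hM
  have : 0 < c ^ 2 := by positivity
  nlinarith

/-- Unit vectors of `c_0`. -/
noncomputable def delta (𝕜 : Type) [RCLike 𝕜] (j : ℕ) : ZeroAtInftyContinuousMap ℕ 𝕜 where
  toFun := Pi.single j 1
  continuous_toFun := continuous_of_discreteTopology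
  zero_at_infty' := by
    rw [Filter.cocompact_eq_cofinite]
    refine tendsto_const_nhds.congr' ?_
    filter_upwards [(Set.finite_singleton j).compl_mem_cofinite] with i hi
    exact (Pi.single_eq_of_ne (M := fun _ : ℕ => 𝕜) hi _).symm

theorem c0_norm_le {f : ZeroAtInftyContinuousMap ℕ 𝕜} {C : ℝ} (hC : 0 ≤ C)
    (h : ∀ i, ‖f i‖ ≤ C) : ‖f‖ ≤ C := by
  rw [← ZeroAtInftyContinuousMap.norm_toBCF_eq_norm]
  exact (BoundedContinuousFunction.norm_le hC).2 h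

theorem c0_apply_le (f : ZeroAtInftyContinuousMap ℕ 𝕜) (i : ℕ) : ‖f i‖ ≤ ‖f‖ := by
  rw [← ZeroAtInftyContinuousMap.norm_toBCF_eq_norm]
  exact f.toBCF.norm_coe_le_norm i

/-- Evaluation on `c_0` as a linear map. -/
def c0ev (𝕜 : Type) [RCLike 𝕜] (i : ℕ) : ZeroAtInftyContinuousMap ℕ 𝕜 →ₗ[𝕜] 𝕜 where
  toFun f := f i
  map_add' _ _ := rfl
  map_smul' _ _ := rfl

theorem sum_delta_apply (J : ℕ) (t : ℕ → 𝕜) (i : ℕ) :
    (∑ j : Fin J, t j • delta 𝕜 j) i = if i < J then t i else 0 := by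
  change c0ev 𝕜 i _ = _
  rw [map_sum, Fin.sum_univ_eq_sum_range fun j => c0ev 𝕜 i (t j • delta 𝕜 j)]
  have : ∀ j, c0ev 𝕜 i (t j • delta 𝕜 j) = if i = j then t j else 0 := fun j => by
    change t j * (Pi.single j 1 : ℕ → 𝕜) i = _
    simp [Pi.single_apply]
  simp only [this, sum_ite_eq, mem_range]

theorem c0_trunc (f : ZeroAtInftyContinuousMap ℕ 𝕜) {η : ℝ} (hη : 0 < η) :
    ∀ᶠ J in Filter.atTop, ‖f - ∑ j : Fin J, f j • delta 𝕜 j‖ ≤ η := by
  have h := f.zero_at_infty'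
  rw [Filter.cocompact_eq_cofinite, Nat.cofinite_eq_atTop] at h
  obtain ⟨N, hN⟩ := (Metric.tendsto_atTop.1 h) η hη
  filter_upwards [Filter.eventually_ge_atTop N] with J hJ
  refine c0_norm_le hη.le fun i => ?_
  rw [ZeroAtInftyContinuousMap.sub_apply, sum_delta_apply J f i]
  split_ifs with hi
  · simpa using hη.le
  · simpa using (hN i (by omega)).le

theorem not_mem_closure (T : SchreierSpace 𝕜 n →L[𝕜] SchreierSpace 𝕜 n)
    (hT : ∀ ε : ℝ, 0 < ε → ∃ (d : ℕ) (σ : Fin d → ℕ+) (b : Fin d → ℝ) (E : Finset ℕ+)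
        (D : (Fin d → Bool) → Finset ℕ+), (∀ i, 0 ≤ b i) ∧ ∑ i, b i = 1 ∧
        (∀ θ : Fin d → 𝕜, (∀ i, ‖θ i‖ ≤ 1) →
          ‖∑ i, ((b i : 𝕜) * θ i) • unit 𝕜 n (σ i)‖ ≤ ε) ∧
        E ∈ Schreier n ∧ (∀ ω, D ω ⊆ E) ∧ (∀ ω ω', ω ≠ ω' → Disjoint (D ω) (D ω')) ∧
        ∀ i ω, ∑ j ∈ D ω, φ j (T (unit 𝕜 n (σ i))) = (sg (ω i) : 𝕜) / 2 ^ d) :
    T ∉ closure (FactorC0 𝕜 (SchreierSpace 𝕜 n)) := by
  intro hcl
  obtain ⟨_, ⟨A, B, rfl⟩, hAB⟩ := Metric.mem_closure_iff.1 hcl (1 / 2) (by norm_num)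
  rw [dist_eq_norm] at hAB
  set η : ℝ := 1 / (65 * (‖A‖ + 1) * (‖B‖ + 1)) with hη
  have hη0 : 0 < η := by positivity
  obtain ⟨d, σ, b, E, D, hb0, hb1, hbθ, hE, hDE, hD, hTe⟩ := hT (η ^ 2) (by positivity)
  let e : Fin d → SchreierSpace 𝕜 n := fun i => unit 𝕜 n (σ i)
  have he : ∀ i, ‖e i‖ ≤ 1 := fun i => (Completion.norm_coe _).le.trans (norm_unit_le _)
  let ψ : (Fin d → Bool) → SchreierSpace 𝕜 n →L[𝕜] 𝕜 := fun ω => ∑ j ∈ D ω, φ j
  have hψ : ∀ (s : (Fin d → Bool) → ℝ), (∀ ω, |s ω| ≤ 1) → ∀ y,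
      ‖∑ ω, (s ω : 𝕜) * ψ ω y‖ ≤ ‖y‖ := fun s hs y => by
    refine le_trans ?_ (sum_φ_le hE y)
    refine le_trans ?_ (sum_le_sum_of_subset_of_nonneg (s := univ.biUnion D)
      (biUnion_subset.2 fun ω _ => hDE ω) fun _ _ _ => norm_nonneg _)
    rw [sum_biUnion fun ω _ ω' _ h => hD ω ω' h]
    refine norm_sum_le_of_le _ fun ω _ => ?_
    rw [norm_mul, RCLike.norm_ofReal]
    refine (mul_le_of_le_one_left (norm_nonneg _) (hs ω)).trans ?_
    simp only [ψ, _root_.sum_apply]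
    exact norm_sum_le _ _
  have hψe : ∀ i, ∑ ω, (sg (ω i) : 𝕜) * ψ ω (T (e i)) = 1 := fun i => by
    have : ∀ ω : Fin d → Bool, (sg (ω i) : 𝕜) * ψ ω (T (e i)) = 1 / 2 ^ d := fun ω => by
      simp only [ψ, _root_.sum_apply, e]
      rw [hTe, ← mul_div_assoc, ← RCLike.ofReal_mul, sg_mul_self, RCLike.ofReal_one]
    simp [this]
  obtain ⟨J, hJ⟩ := (Filter.eventually_all.2 fun i =>
    c0_trunc (B (e i)) (η := 1 / (4 * (‖A‖ + 1))) (by positivity)).exists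
  let α : (Fin d → Bool) → Fin J → 𝕜 := fun ω j => ψ ω (A (delta 𝕜 j))
  have hα : ∀ (s : (Fin d → Bool) → ℝ) (t : ℕ → 𝕜),
      ∑ ω, (s ω : 𝕜) * ψ ω (A (∑ j : Fin J, t j • delta 𝕜 j)) =
        ∑ ω, ∑ j : Fin J, (s ω : 𝕜) * (t j * α ω j) := fun s t => by
    simp only [map_sum, map_smul, smul_eq_mul, mul_sum, α]
  -- lower bound
  have hlow : ∀ i, 1 / 4 ≤ ∑ ω, ∑ j : Fin J, sg (ω i) *
      (RCLike.re (B (e i) j) * RCLike.re (α ω j) - RCLike.im (B (e i) j) * RCLike.im (α ω j)) := by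
    intro i
    have h1 : ‖T (e i) - A (∑ j : Fin J, B (e i) j • delta 𝕜 j)‖ ≤ 3 / 4 := by
      have h2 : T (e i) - A (∑ j : Fin J, B (e i) j • delta 𝕜 j) =
          (T - A.comp B) (e i) + A (B (e i) - ∑ j : Fin J, B (e i) j • delta 𝕜 j) := by
        simp only [_root_.sub_apply, ContinuousLinearMap.comp_apply, map_sub]
        abel
      have h3 := ((T - A.comp B).le_opNorm (e i)).trans
        (mul_le_of_le_one_right (norm_nonneg _) (he i))
      have h4 := (A.le_opNorm _).trans (mul_le_mul_of_nonneg_left (hJ i) (norm_nonneg A))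
      have h5 : ‖A‖ * (1 / (4 * (‖A‖ + 1))) ≤ 1 / 4 := by
        rw [mul_one_div, div_le_iff₀ (by positivity)]; linarith
      rw [h2]
      exact (norm_add_le _ _).trans (by linarith)
    have h2 := (hψ (fun ω => sg (ω i)) (fun ω => (abs_sg _).le) _).trans h1
    simp only [map_sub, mul_sub, sum_sub_distrib] at h2
    rw [hψe, hα _ (B (e i))] at h2
    have h3 := (RCLike.re_le_norm _).trans h2
    simp only [map_sub, map_sum, RCLike.one_re, RCLike.re_ofReal_mul] at h3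
    simp only [RCLike.mul_re] at h3
    linarith
  -- the two real matrices
  have hcube : ∀ (s : (Fin d → Bool) → ℝ) (t : Fin J → ℝ), (∀ ω, |s ω| ≤ 1) → (∀ j, |t j| ≤ 1) →
      ‖∑ ω, ∑ j : Fin J, ((s ω * t j : ℝ) : 𝕜) * α ω j‖ ≤ ‖A‖ := fun s t hs ht => by
    let t' : ℕ → 𝕜 := fun j => if h : j < J then t ⟨j, h⟩ else 0
    have h1 := hψ s hs (A (∑ j : Fin J, t' j • delta 𝕜 j))
    rw [hα] at h1
    have h2 : ‖∑ j : Fin J, t' j • delta 𝕜 j‖ ≤ 1 := c0_norm_le zero_le_one fun i => by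
      rw [sum_delta_apply]
      split_ifs with hi
      · simpa [t', hi] using ht _
      · simp
    have h3 := h1.trans ((A.le_opNorm _).trans (mul_le_of_le_one_right (norm_nonneg _) h2))
    simpa [t', mul_assoc] using h3
  have hG1 := grothendieck (a := fun ω j => RCLike.re (α ω j)) (C := ‖A‖) fun s t hs ht => by
    have := (RCLike.abs_re_le_norm _).trans (hcube s t hs ht)
    simpa only [map_sum, RCLike.re_ofReal_mul, mul_comm] using this
  have hG2 := grothendieck (a := fun ω j => RCLike.im (α ω j)) (C := ‖A‖) fun s t hs ht => by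
    have := (RCLike.abs_im_le_norm _).trans (hcube s t hs ht)
    simpa only [map_sum, RCLike.im_ofReal_mul, mul_comm] using this
  have hu : ∀ ω : Fin d → Bool, ∑ i, (√(b i) * sg (ω i)) ^ 2 ≤ 1 ^ 2 := fun ω => by
    simp only [mul_pow, Real.sq_sqrt (hb0 _), sq (sg _), sg_mul_self, mul_one, hb1, one_pow, le_refl]
  have hv : ∀ j : ℕ, ∑ i, b i * ‖B (e i) j‖ ^ 2 ≤ ((‖B‖ + 1) * η) ^ 2 := fun j => by
    choose θ hθ hθ' using fun i => RCLike.exists_norm_eq_mul_self (B (e i) j)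
    have h1 := hbθ θ fun i => (hθ i).le
    have h2 : ((∑ i, b i * ‖B (e i) j‖ : ℝ) : 𝕜) =
        B ((∑ i, ((b i : 𝕜) * θ i) • unit 𝕜 n (σ i) : C00 𝕜 n) : SchreierSpace 𝕜 n) j := by
      change _ = c0ev 𝕜 j (B (Completion.toComplL (𝕜 := 𝕜) _))
      simp only [map_sum, map_smul, smul_eq_mul, RCLike.ofReal_mul, mul_assoc]
      exact sum_congr rfl fun i _ => congrArg _ (hθ' i)
    have h3 : ∑ i, b i * ‖B (e i) j‖ ≤ ‖B‖ * η ^ 2 := by
      refine (le_abs_self _).trans ?_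
      rw [← RCLike.norm_ofReal (K := 𝕜), h2]
      refine (c0_apply_le _ _).trans ((B.le_opNorm _).trans ?_)
      rw [Completion.norm_coe]
      gcongr
    have h4 : ∑ i, b i * ‖B (e i) j‖ ^ 2 ≤ ‖B‖ * ∑ i, b i * ‖B (e i) j‖ := by
      rw [mul_sum]
      refine sum_le_sum fun i _ => ?_
      have h5 : ‖B (e i) j‖ ≤ ‖B‖ := (c0_apply_le _ _).trans ((B.le_opNorm _).trans
        (mul_le_of_le_one_right (norm_nonneg _) (he i)))
      have := mul_nonneg (hb0 i) (norm_nonneg (B (e i) j))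
      nlinarith
    have h5 := h4.trans (mul_le_mul_of_nonneg_left h3 (norm_nonneg B))
    have := norm_nonneg B
    have := sq_nonneg η
    nlinarith
  have hV : 0 < (‖B‖ + 1) * η := by positivity
  have k1 := hG1.scale (fun ω i => √(b i) * sg (ω i))
    (fun j i => √(b i) * RCLike.re (B (e i) j)) one_pos hV hu fun j =>
      le_trans (sum_le_sum fun i _ => by
        rw [mul_pow, Real.sq_sqrt (hb0 _)]
        exact mul_le_mul_of_nonneg_left (sq_le_sq' (abs_le.1 (RCLike.abs_re_le_norm _)).1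
          (RCLike.re_le_norm _)) (hb0 i)) (hv j)
  have k2 := hG2.scale (fun ω i => √(b i) * sg (ω i))
    (fun j i => √(b i) * RCLike.im (B (e i) j)) one_pos hV hu fun j =>
      le_trans (sum_le_sum fun i _ => by
        rw [mul_pow, Real.sq_sqrt (hb0 _)]
        exact mul_le_mul_of_nonneg_left (sq_le_sq' (abs_le.1 (RCLike.abs_im_le_norm _)).1
          (RCLike.im_le_norm _)) (hb0 i)) (hv j)
  have k3 : 1 / 4 ≤ ∑ i, b i * ∑ ω, ∑ j : Fin J, sg (ω i) *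
      (RCLike.re (B (e i) j) * RCLike.re (α ω j) - RCLike.im (B (e i) j) * RCLike.im (α ω j)) := by
    calc (1 / 4 : ℝ) = ∑ i, b i * (1 / 4) := by rw [← sum_mul, hb1, one_mul]
      _ ≤ _ := sum_le_sum fun i _ => mul_le_mul_of_nonneg_left (hlow i) (hb0 i)
  have k4 : ∑ i, b i * ∑ ω, ∑ j : Fin J, sg (ω i) *
      (RCLike.re (B (e i) j) * RCLike.re (α ω j) - RCLike.im (B (e i) j) * RCLike.im (α ω j)) =
      (∑ ω, ∑ j : Fin J, RCLike.re (α ω j) *
        ∑ i, √(b i) * sg (ω i) * (√(b i) * RCLike.re (B (e i) j))) -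
      ∑ ω, ∑ j : Fin J, RCLike.im (α ω j) *
        ∑ i, √(b i) * sg (ω i) * (√(b i) * RCLike.im (B (e i) j)) := by
    simp only [mul_sum, ← sum_sub_distrib]
    rw [sum_comm]
    refine sum_congr rfl fun ω _ => ?_
    rw [sum_comm]
    refine sum_congr rfl fun j _ => sum_congr rfl fun i _ => ?_
    have := Real.mul_self_sqrt (hb0 i)
    linear_combination (-sg (ω i) * (RCLike.re (B (e i) j) * RCLike.re (α ω j) -
      RCLike.im (B (e i) j) * RCLike.im (α ω j))) * this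
  have k5 : 8 * ‖A‖ * (1 * ((‖B‖ + 1) * η)) < 1 / 8 := by
    have : 8 * ‖A‖ * (1 * ((‖B‖ + 1) * η)) = 8 * ‖A‖ / (65 * (‖A‖ + 1)) := by
      rw [hη]; field_simp
    rw [this, div_lt_iff₀ (by positivity)]
    have := norm_nonneg A
    linarith
  have := (abs_le.1 k1).2
  have := (abs_le.1 k2).1
  linarith

theorem main (𝕜 : Type) [RCLike 𝕜] (m : ℕ) :
    ∃ T : SchreierSpace 𝕜 (m + 1) →L[𝕜] SchreierSpace 𝕜 (m + 1),
      StrictlySingular T ∧ T ∉ closure (FactorC0 𝕜 (SchreierSpace 𝕜 (m + 1))) := by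
  obtain ⟨T₀, h1, h2⟩ := exists_op 𝕜 m
  have h3 : ∀ (x : C00 𝕜 (m + 1)) (σ : ℝ), (∀ j, ‖coord x j‖ ≤ σ) →
      ‖T₀ x‖ ^ 2 ≤ 72 * σ * ‖x‖ := fun x σ hσ => by
    have hσ0 : 0 ≤ σ := (norm_nonneg _).trans (hσ 1)
    have h4 : √(8 * σ * ‖x‖) ^ 2 = 8 * σ * ‖x‖ := Real.sq_sqrt (by positivity)
    have h5 := h1 x _ (Real.sqrt_nonneg _) fun A => (sq_sum_le (fun j => norm_nonneg _)
      (fun F hF => sum_le_norm x hF) hσ A).trans h4.ge
    have h6 := pow_le_pow_left₀ (norm_nonneg _) h5 2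
    rw [mul_pow, h4] at h6
    linarith
  let T₁ : C00 𝕜 (m + 1) →L[𝕜] C00 𝕜 (m + 1) := T₀.mkContinuous 9 fun x =>
    le_of_sq_le_sq ((h3 x _ (norm_coord_le x)).trans (by nlinarith [sq_nonneg ‖x‖]))
      (by positivity)
  have hT : ∀ x : C00 𝕜 (m + 1), T₁.completion x = (T₀ x : C00 𝕜 (m + 1)) := fun x =>
    T₁.completion_apply_coe x
  refine ⟨T₁.completion, strictlySingular_of_bound _ fun y σ hσ => ?_,
    not_mem_closure _ fun ε hε => ?_⟩
  · have key : ∀ δ : ℝ, 0 < δ → ‖T₁.completion y‖ ^ 2 ≤ 72 * (σ + δ) * ‖y‖ := fun δ hδ => by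
      have h4 := Completion.denseRange_coe.open_subset_closure_inter Metric.isOpen_ball
        (Metric.mem_ball_self (x := y) hδ)
      refine closure_minimal (t := {y | ‖T₁.completion y‖ ^ 2 ≤ 72 * (σ + δ) * ‖y‖}) ?_
        (isClosed_le (by fun_prop) (by fun_prop)) h4
      rintro _ ⟨hx, x, rfl⟩
      rw [Set.mem_ofPred_eq, hT, Completion.norm_coe, Completion.norm_coe]
      refine h3 x _ fun j => ?_
      have h5 := norm_φ_le j ((x : SchreierSpace 𝕜 (m + 1)) - y)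
      rw [map_sub, φ_coe, ← dist_eq_norm] at h5
      have h6 := norm_add_le (coord x j - φ j y) (φ j y)
      rw [sub_add_cancel] at h6
      have h7 := hσ j
      have h8 := Metric.mem_ball.1 hx
      rw [dist_eq_norm] at h5
      rw [← dist_eq_norm (x : SchreierSpace 𝕜 (m + 1))] at h5
      linarith
    have hl : Filter.Tendsto (fun δ : ℝ => 72 * (σ + δ) * ‖y‖) (nhdsWithin 0 (Set.Ioi 0))
        (nhds (72 * (σ + 0) * ‖y‖)) :=
      ((by fun_prop : Continuous fun δ : ℝ => 72 * (σ + δ) * ‖y‖).tendsto 0).mono_left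
        nhdsWithin_le_nhds
    rw [add_zero] at hl
    exact ge_of_tendsto hl (eventually_mem_nhdsWithin.mono key)
  · obtain ⟨d, σ, b, E, D, k1, k2, k3, k4, k5, k6, k7⟩ := h2 ε hε
    exact ⟨d, σ, b, E, D, k1, k2, k3, k4, k5, k6, fun i ω => by
      simpa only [hT, φ_coe] using k7 i ω⟩

end Pool.Agent.Lib.MP_3cdc4e_an
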