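import Pool.Agent.Lib.MP_3cdc4e_an.L2
import Pool.Agent.Lib.MP_3cdc4e_an.Groth

/-! The operator on finitely supported sequences. -/

namespace Pool.Agent.Lib.MP_3cdc4e_an

open Finset

variable {𝕜 : Type} [RCLike 𝕜] {n : ℕ}

/-- The `j`-th coordinate as a linear functional. -/
def coordL (j : ℕ+) : C00 𝕜 n →ₗ[𝕜] 𝕜 where
  toFun x := coord x j
  map_add' _ _ := rfl
  map_smul' _ _ := rfl

theorem coordL_apply (j : ℕ+) (x : C00 𝕜 n) : coordL j x = coord x j := rfl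

theorem coord_sum {ι : Type} (s : Finset ι) (x : ι → C00 𝕜 n) (j : ℕ+) :
    coord (∑ i ∈ s, x i) j = ∑ i ∈ s, coord (x i) j := map_sum (coordL j) x s

theorem coord_smul (c : 𝕜) (x : C00 𝕜 n) (j : ℕ+) : coord (c • x) j = c * coord x j := rfl

/-- Unit vectors. -/
noncomputable def unit (𝕜 : Type) [RCLike 𝕜] (n : ℕ) (i : ℕ+) : C00 𝕜 n := Finsupp.single i 1

theorem coord_unit (i j : ℕ+) : coord (unit 𝕜 n i) j = if i = j then 1 else 0 :=
  Finsupp.single_apply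

theorem norm_unit_le (i : ℕ+) : ‖unit 𝕜 n i‖ ≤ 1 := by
  refine norm_le fun F _ => ?_
  simp only [coord_unit, apply_ite norm, norm_one, norm_zero, sum_ite_eq]
  split_ifs <;> norm_num

/-- A real function supported in a finite set, as a finitely supported sequence. -/
noncomputable def vec (𝕜 : Type) [RCLike 𝕜] (n : ℕ) (D : Finset ℕ+) (a : ℕ+ → ℝ) : C00 𝕜 n :=
  ∑ j ∈ D, (a j : 𝕜) • unit 𝕜 n j

theorem coord_vec {D : Finset ℕ+} {a : ℕ+ → ℝ} (h : ∀ j, a j ≠ 0 → j ∈ D) (j : ℕ+) :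
    coord (vec 𝕜 n D a) j = a j := by
  simp only [vec, coord_sum, coord_smul, coord_unit, mul_ite, mul_one, mul_zero, sum_ite_eq']
  split_ifs with hj
  · rfl
  · by_contra h0
    exact hj (h j fun h1 => h0 (by simp [h1]))

theorem eq_sum_unit (x : C00 𝕜 n) :
    x = ∑ j ∈ Finsupp.support x, coord x j • unit 𝕜 n j := by
  refine Finsupp.ext fun j => ?_
  change coord x j = coord _ j
  simp only [coord_sum, coord_smul, coord_unit, mul_ite, mul_one, mul_zero, sum_ite_eq']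
  split_ifs with hj
  · rfl
  · exact Finsupp.notMem_support_iff.1 hj

theorem sum_rad_norm_sq {d : ℕ} (z : Fin d → 𝕜) :
    ∑ ω : Fin d → Bool, ‖∑ i, (sg (ω i) : 𝕜) * z i‖ ^ 2 = 2 ^ d * ∑ i, ‖z i‖ ^ 2 := by
  have h : ∀ w : 𝕜, ‖w‖ ^ 2 = RCLike.re w ^ 2 + RCLike.im w ^ 2 := fun w => by
    rw [RCLike.norm_sq_eq_def, sq, sq]
  simp only [h, sum_add_distrib, mul_add, ← sum_rad_sq, rad, map_sum, RCLike.re_ofReal_mul,
    RCLike.im_ofReal_mul, mul_comm (sg _)]

theorem avg_rad_norm_le {d : ℕ} (z : Fin d → 𝕜) {L : ℝ} (hL : 0 ≤ L)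
    (h : ∑ i, ‖z i‖ ^ 2 ≤ L ^ 2) :
    ∑ ω : Fin d → Bool, ‖∑ i, (sg (ω i) : 𝕜) * z i‖ / 2 ^ d ≤ L := by
  rw [← sum_div, div_le_iff₀ (by positivity)]
  refine le_of_sq_le_sq ?_ (by positivity)
  refine sq_sum_le_card_mul_sum_sq.trans ?_
  rw [sum_rad_norm_sq]
  simp only [card_univ, Fintype.card_fun, Fintype.card_bool, Fintype.card_fin, Nat.cast_pow,
    Nat.cast_ofNat]
  have : (0 : ℝ) ≤ 2 ^ d * 2 ^ d := by positivity
  nlinarith

/-- One block of the operator. -/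
noncomputable def blockOp (𝕜 : Type) [RCLike 𝕜] (n : ℕ) {d : ℕ} (σ : Fin d → ℕ+)
    (D : (Fin d → Bool) → Finset ℕ+) (a : (Fin d → Bool) → ℕ+ → ℝ) : C00 𝕜 n →ₗ[𝕜] C00 𝕜 n :=
  ∑ ω, ((2 ^ d : 𝕜)⁻¹ • ∑ i, (sg (ω i) : 𝕜) • coordL (σ i)).smulRight (vec 𝕜 n (D ω) (a ω))

theorem coord_blockOp {d : ℕ} (σ : Fin d → ℕ+) {D : (Fin d → Bool) → Finset ℕ+}
    {a : (Fin d → Bool) → ℕ+ → ℝ} (h : ∀ ω j, a ω j ≠ 0 → j ∈ D ω) (x : C00 𝕜 n) (j : ℕ+) :
    coord (blockOp 𝕜 n σ D a x) j =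
      ∑ ω, (∑ i, (sg (ω i) : 𝕜) * coord x (σ i)) / 2 ^ d * a ω j := by
  simp only [blockOp, LinearMap.sum_apply, LinearMap.smulRight_apply, LinearMap.smul_apply,
    coord_sum, coord_smul, coord_vec (h _), coordL_apply, smul_eq_mul]
  refine sum_congr rfl fun ω _ => ?_
  rw [div_eq_inv_mul]

theorem exists_op (𝕜 : Type) [RCLike 𝕜] (m : ℕ) :
    ∃ T : C00 𝕜 (m + 1) →ₗ[𝕜] C00 𝕜 (m + 1),
      (∀ (x : C00 𝕜 (m + 1)) (L : ℝ), 0 ≤ L → (∀ A : Finset ℕ+, ∑ j ∈ A, ‖coord x j‖ ^ 2 ≤ L ^ 2) →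
        ‖T x‖ ≤ 3 * L) ∧
      ∀ ε : ℝ, 0 < ε → ∃ (d : ℕ) (σ : Fin d → ℕ+) (b : Fin d → ℝ) (E : Finset ℕ+)
        (D : (Fin d → Bool) → Finset ℕ+), (∀ i, 0 ≤ b i) ∧ ∑ i, b i = 1 ∧
        (∀ θ : Fin d → 𝕜, (∀ i, ‖θ i‖ ≤ 1) →
          ‖∑ i, ((b i : 𝕜) * θ i) • unit 𝕜 (m + 1) (σ i)‖ ≤ ε) ∧
        E ∈ Schreier (m + 1) ∧ (∀ ω, D ω ⊆ E) ∧ (∀ ω ω', ω ≠ ω' → Disjoint (D ω) (D ω')) ∧
        ∀ i ω, ∑ j ∈ D ω, coord (T (unit 𝕜 (m + 1) (σ i))) j = (sg (ω i) : 𝕜) / 2 ^ d := by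
  have h1 := fun k : ℕ => exists_fam (m + 1) (ε := (1 / 2) ^ k) (by positivity) k Unit
  choose E₁ I b hb using h1
  let d : ℕ → ℕ := fun k => (I k ()).card
  let σ : ∀ k, Fin (d k) → ℕ+ := fun k => (I k ()).orderEmbOfFin rfl
  have hσ : ∀ k i, σ k i ∈ I k () := fun k i => (I k ()).orderEmbOfFin_mem rfl i
  have hσi : ∀ k, Function.Injective (σ k) := fun k => ((I k ()).orderEmbOfFin rfl).injective
  have hσk : ∀ k i, k < (σ k i : ℕ) := fun k i => (hb k).gt _ ((hb k).sub () (hσ k i))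
  have hσs : ∀ k (f : ℕ+ → ℝ), ∑ i, f (σ k i) = ∑ j ∈ I k (), f j := fun k f => by
    rw [← sum_image (s := univ) (g := σ k) (hσi k).injOn]
    congr 1
    exact (I k ()).image_orderEmbOfFin_univ rfl
  obtain ⟨p, x, -, hp, hx, hxp⟩ := exists_seq
    (α := fun k => Finset ℕ+ × ((Fin (d k) → Bool) → Finset ℕ+) × ((Fin (d k) → Bool) → ℕ+ → ℝ))
    (fun _ x => x.1) (fun k q x => Fam m q ((1 / 2) ^ k / (q + 1)) x.1 x.2.1 x.2.2)
    (fun k q => by
      obtain ⟨E, D, a, h⟩ := exists_fam m (ε := (1 / 2) ^ k / (q + 1)) (by positivity) q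
        (Fin (d k) → Bool)
      exact ⟨(E, D, a), h⟩) 0
  let u : ℕ → C00 𝕜 (m + 1) →ₗ[𝕜] C00 𝕜 (m + 1) := fun k =>
    blockOp 𝕜 (m + 1) (σ k) (x k).2.1 (x k).2.2
  have hu : ∀ k y j, coord (u k y) j =
      ∑ ω, (∑ i, (sg (ω i) : 𝕜) * coord y (σ k i)) / 2 ^ d k * (x k).2.2 ω j := fun k y j =>
    coord_blockOp (σ k) (hx k).supp y j
  have hu0 : ∀ k (i : ℕ+), (i : ℕ) ≤ k → u k (unit 𝕜 (m + 1) i) = 0 := fun k i hi => by
    refine Finsupp.ext fun j => ?_
    change coord _ j = 0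
    rw [hu]
    refine sum_eq_zero fun ω _ => ?_
    rw [sum_eq_zero, zero_div, zero_mul]
    intro i' _
    rw [coord_unit, if_neg, mul_zero]
    rintro rfl
    exact absurd (hσk k i') (not_lt.2 hi)
  let T : C00 𝕜 (m + 1) →ₗ[𝕜] C00 𝕜 (m + 1) :=
    Finsupp.linearCombination 𝕜 fun i : ℕ+ => ∑ k ∈ range i, u k (unit 𝕜 (m + 1) i)
  have hTu : ∀ (i : ℕ+) (N : ℕ), (i : ℕ) ≤ N →
      T (unit 𝕜 (m + 1) i) = ∑ k ∈ range N, u k (unit 𝕜 (m + 1) i) := fun i N hN => by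
    have : T (unit 𝕜 (m + 1) i) = ∑ k ∈ range i, u k (unit 𝕜 (m + 1) i) :=
      (Finsupp.linearCombination_single 𝕜 (1 : 𝕜) i).trans (one_smul _ _)
    rw [this]
    exact sum_subset (range_subset_range.2 hN) fun k _ hk => hu0 k i (by simpa using hk)
  have hT : ∀ y : C00 𝕜 (m + 1), ∃ N, T y = ∑ k ∈ range N, u k y := fun y => by
    refine ⟨(Finsupp.support y).sup fun j => (j : ℕ), ?_⟩
    generalize hN : ((Finsupp.support y).sup fun j : ℕ+ => (j : ℕ)) = N
    rw [← LinearMap.sum_apply]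
    conv_lhs => rw [eq_sum_unit y]
    conv_rhs => rw [eq_sum_unit y]
    rw [map_sum, map_sum]
    refine sum_congr rfl fun j hj => ?_
    rw [map_smul, map_smul, LinearMap.sum_apply,
      hTu j N (hN ▸ Finset.le_sup (f := fun j : ℕ+ => (j : ℕ)) hj)]
  refine ⟨T, fun y L hL hy => ?_, fun ε hε => ?_⟩
  · obtain ⟨N, hN⟩ := hT y
    let w : ∀ k, (Fin (d k) → Bool) → ℝ := fun k ω =>
      ‖∑ i, (sg (ω i) : 𝕜) * coord y (σ k i)‖ / 2 ^ d k
    have hw0 : ∀ k ω, 0 ≤ w k ω := fun k ω => by positivity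
    have hw : ∀ k, ∑ ω, w k ω ≤ L := fun k =>
      avg_rad_norm_le _ hL ((hσs k fun j => ‖coord y j‖ ^ 2).le.trans (hy _))
    have hgl := glue (m := m) hp (y := fun k j => ∑ ω, w k ω * (x k).2.2 ω j)
      (fun k j => sum_nonneg fun ω _ => mul_nonneg (hw0 k ω) ((hx k).nonneg ω j))
      (fun k j hj => by
        obtain ⟨ω, -, h0⟩ := exists_ne_zero_of_sum_ne_zero hj
        exact hxp k j ((hx k).sub ω ((hx k).supp ω j (right_ne_zero_of_mul h0))))
      (c := L) (fun k F => by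
        rw [sum_comm]
        refine le_trans (sum_le_sum fun ω _ => ?_) (hw k)
        rw [← mul_sum]
        exact mul_le_of_le_one_right (hw0 k ω)
          ((sum_le_of_supp ((hx k).nonneg ω) ((hx k).supp ω) F).trans ((hx k).sum ω).le))
      (δ := fun k => L * ((1 / 2) ^ k / (p k + 1))) (η := fun k => L * (1 / 2) ^ k)
      (fun k F hF => by
        rw [sum_comm]
        refine le_trans ?_ (mul_le_mul_of_nonneg_right (hw k) (by positivity))
        rw [sum_mul]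
        refine sum_le_sum fun ω _ => ?_
        rw [← mul_sum]
        exact mul_le_mul_of_nonneg_left ((hx k).bd ω F hF) (hw0 k ω))
      (fun k => by
        rw [mul_left_comm]
        gcongr
        rw [mul_div_assoc', div_le_iff₀ (by positivity)]
        have : (0 : ℝ) ≤ (1 / 2) ^ k := by positivity
        nlinarith) (range N)
    refine norm_le fun F hF => ?_
    have h2 : ∑ k ∈ range N, L * (1 / 2) ^ k ≤ L * 2 := by
      rw [← mul_sum]
      exact mul_le_mul_of_nonneg_left (sum_geometric_two_le N) hL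
    refine le_trans (sum_le_sum fun j _ => ?_) ((hgl F hF).trans (by linarith))
    rw [hN, coord_sum]
    refine norm_sum_le_of_le _ fun k _ => ?_
    rw [hu]
    refine norm_sum_le_of_le _ fun ω _ => le_of_eq ?_
    rw [norm_mul, norm_div, norm_pow, RCLike.norm_two, RCLike.norm_ofReal,
      abs_of_nonneg ((hx k).nonneg ω j)]
  · obtain ⟨k, hk⟩ := exists_pow_lt_of_lt_one hε (by norm_num : (1 / 2 : ℝ) < 1)
    refine ⟨d k, σ k, fun i => b k () (σ k i), (x k).1, (x k).2.1, fun i => (hb k).nonneg _ _,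
      (hσs k (b k ())).trans ((hb k).sum ()), fun θ hθ => ?_, (hx k).mem, (hx k).sub, (hx k).disj,
      fun i ω => ?_⟩
    · refine norm_le fun F hF => le_trans (sum_le_sum fun j _ => ?_) (((hb k).bd () F hF).trans hk.le)
      simp only [coord_sum, coord_smul, coord_unit, mul_ite, mul_one, mul_zero]
      by_cases hj : ∃ i, σ k i = j
      · obtain ⟨i, rfl⟩ := hj
        simp only [(hσi k).eq_iff, sum_ite_eq', mem_univ, if_true, norm_mul, RCLike.norm_ofReal,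
          abs_of_nonneg ((hb k).nonneg _ _)]
        exact mul_le_of_le_one_right ((hb k).nonneg _ _) (hθ i)
      · rw [sum_eq_zero fun i _ => if_neg fun h => hj ⟨i, h⟩, norm_zero]
        exact (hb k).nonneg _ _
    · rw [hTu _ _ le_rfl]
      simp only [coord_sum]
      rw [sum_comm, sum_eq_single_of_mem k (mem_range.2 (hσk k i))]
      · simp only [hu, coord_unit, (hσi k).eq_iff, mul_ite, mul_one, mul_zero, sum_ite_eq,
          mem_univ, if_true]
        rw [sum_comm, sum_eq_single ω]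
        · rw [← mul_sum, ← RCLike.ofReal_sum, (hx k).sum ω]
          simp
        · intro ω' _ hω
          refine sum_eq_zero fun j hj => ?_
          have : (x k).2.2 ω' j = 0 := by
            by_contra h0
            exact disjoint_left.1 ((hx k).disj ω' ω hω) ((hx k).supp ω' j h0) hj
          simp [this]
        · simp
      · intro k' _ hk'
        refine sum_eq_zero fun j hj => ?_
        rw [hu]
        refine sum_eq_zero fun ω' _ => ?_
        have : (x k').2.2 ω' j = 0 := by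
          by_contra h0
          have h3 := (hx k').sub ω' ((hx k').supp ω' j h0)
          have h4 := (hx k).sub ω hj
          have h5 := (hx k').gt j h3
          have h6 := (hx k).gt j h4
          have h7 := hxp k' j h3
          have h8 := hxp k j h4
          rcases lt_or_gt_of_ne hk' with h | h
          · have := hp (show k' + 1 ≤ k from h); omega
          · have := hp (show k + 1 ≤ k' from h); omega
        simp [this]

end Pool.Agent.Lib.MP_3cdc4e_an
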